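import Pool.Agent.CBSl2.Cone

open Pool.Agent.CBSl2

/-- For `n ≥ 7` the cone of `sl_2` conformal block divisors on the moduli space of stable
`n`-pointed rational curves is not finitely generated: for every `l0` some conformal block divisor
of level greater than `l0` lies outside the cone spanned by the conformal block divisors of level
at most `l0`. -/
theorem Pool.Agent.Results.MP_e1a373_ag.Sl2NotFG.result (n : ℕ) (hn : 7 ≤ n) :
    ¬ (cbCone n).FG ∧
    ∀ l0 : ℕ, ∃ l : ℕ, l0 < l ∧ ∃ lam : Fin n → ℕ, (∀ i, lam i ≤ l) ∧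
      cbDiv l lam ∉ cbConeLE n l0 := by
  have key : ∀ l0 : ℕ, ∃ l : ℕ, l0 < l ∧ ∃ lam : Fin n → ℕ, (∀ i, lam i ≤ l) ∧
      cbDiv l lam ∉ cbConeLE n l0 := by
    intro l0
    obtain ⟨m, hm, hl, hmem⟩ := exists_not_mem hn l0
    exact ⟨8 * m, hl, fam n m, fam_le n m hm, hmem⟩
  refine ⟨?_, key⟩
  intro hfg
  obtain ⟨l0, hl0⟩ := fg_bound n hfg
  obtain ⟨l, hl, lam, hlam, hmem⟩ := key l0
  apply hmem
  apply hl0
  unfold cbCone
  apply Submodule.subset_span
  exact ⟨l, by omega, Set.mem_univ _, lam, hlam, rfl⟩
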